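import Pool.Agent.Helper27.RV.St

set_option autoImplicit false

/-!
Module CVD: coverings at large cofinality.
-/

open Cardinal Ordinal Set

universe u

namespace Pool.Agent.Helper95.RV

open Pool.Agent.Helper27.RV

theorem pCVD : StCVD.{u} := by
  intro K β δ m t hm ht hβ hs
  have h1 : ∀ s : t.ToType, Cov K β δ m (s.toOrd : Ordinal.{u}) := fun s => hs _ s.toOrd.2
  choose ι hι P hP using h1
  refine ⟨Σ s, ι s, ?_, fun i k => P i.1 i.2 k, ?_⟩
  · rw [Cardinal.mk_sigma]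
    refine Cardinal.sum_lt_of_isRegular hm ?_ hι
    rw [mk_toType]
    exact Cardinal.lt_ord.1 ht
  · intro y hy
    obtain ⟨s, hst, hys⟩ := exists_bd hβ y hy
    have h2 : ((ToType.mk ⟨s, hst⟩ : t.ToType).toOrd : Ordinal.{u}) = s := by
      simp [ToType.toOrd]
    obtain ⟨I, hI, h3⟩ := hP (ToType.mk ⟨s, hst⟩) y (fun e => by rw [h2]; exact hys e)
    refine ⟨(fun i => (⟨ToType.mk ⟨s, hst⟩, i⟩ : Σ s, ι s)) '' I, mk_image_le.trans hI, ?_⟩
    intro e
    obtain ⟨i, hi, k, hk⟩ := h3 e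
    exact ⟨_, ⟨i, hi, rfl⟩, k, hk⟩

end Pool.Agent.Helper95.RV
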