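import Pool.Agent.Helper27.RV.StL

set_option autoImplicit false

/-!
Module NCV: a sequence which is not covered by few earlier members.
-/

open Cardinal Ordinal Set Filter

universe u

namespace Pool.Agent.Helper95.RV

open Pool.Agent.Helper27.RV Pool.Agent.Helper65.GS Pool.Agent.Helper36.VC

private theorem mk_toOrd {a : Ordinal.{u}} (e : a.ToType)
    (h : (e.toOrd : Ordinal.{u}) < a) : ToType.mk ⟨(e.toOrd : Ordinal.{u}), h⟩ = e :=
  ToType.mk.apply_symm_apply e

private theorem key (s a t : Ordinal.{u}) (δ : Cardinal.{u}) (hδ : δ < a.card)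
    (hC : ¬ CovLT s a t) (y : Ordinal.{u}) (S0 : Ordinal.{u} → a.ToType → Ordinal.{u}) :
    ∃ T : a.ToType → Ordinal.{u}, y < t → (∀ e, T e < s) ∧
      ∀ (Q : Type u) (q : Q → Ordinal.{u}), #Q ≤ δ → (∀ i, q i < y) →
        ¬ ∀ e, ∃ i e', T e = S0 (q i) e' := by
  classical
  by_cases hy : y < t
  · unfold CovLT at hC
    push Not at hC
    obtain ⟨z, hz1, hz2⟩ := hC y hy
      (fun i e => if h : e < a then S0 i (ToType.mk ⟨e, h⟩) else 0)
    refine ⟨fun e => z (e.toOrd : Ordinal.{u}), fun _ => ⟨fun e => hz1 _ e.toOrd.2, ?_⟩⟩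
    intro Q q hQ hq hall
    have hb : (#Q).ord < a := by
      by_contra h
      have h1 := Ordinal.card_le_card (not_lt.1 h)
      rw [card_ord] at h1
      exact absurd (hδ.trans_le h1) (not_lt.2 hQ)
    obtain ⟨φ⟩ : Nonempty ((#Q).ord.ToType ≃ Q) := by
      rw [← Cardinal.eq, mk_toType, card_ord]
    obtain ⟨e, he, h2⟩ := hz2 (#Q).ord hb
      (fun n => if h : n < (#Q).ord then q (φ (ToType.mk ⟨n, h⟩)) else 0)
      (fun n hn => by
        simp only [hn, dif_pos]
        exact hq _)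
    obtain ⟨i, e', h3⟩ := hall (ToType.mk ⟨e, he⟩)
    have h4 : ((ToType.mk ⟨e, he⟩ : a.ToType).toOrd : Ordinal.{u}) = e := by
      simp [ToType.toOrd]
    have hn : ((φ.symm i).toOrd : Ordinal.{u}) < (#Q).ord := (φ.symm i).toOrd.2
    have h5 := h2 ((φ.symm i).toOrd : Ordinal.{u}) hn (e'.toOrd : Ordinal.{u}) e'.toOrd.2
    have h8 : (e'.toOrd : Ordinal.{u}) < a := e'.toOrd.2
    rw [dif_pos h8, mk_toOrd e' h8, dif_pos hn, mk_toOrd (φ.symm i) hn,
      Equiv.apply_symm_apply] at h5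
    have h9 : z ((ToType.mk ⟨e, he⟩ : a.ToType).toOrd : Ordinal.{u}) = S0 (q i) e' := h3
    rw [h4] at h9
    exact h5 h9
  · exact ⟨fun _ => 0, fun h => absurd h hy⟩

theorem pNCV : StNCV.{u} := by
  classical
  intro s a t δ hδ hC
  choose T hT using key s a t δ hδ hC
  let S : Ordinal.{u} → a.ToType → Ordinal.{u} :=
    Ordinal.lt_wf.fix (fun y rec => T y (fun b => if h : b < y then rec b h else fun _ => 0))
  have hS : ∀ y, S y = T y (fun b => if _h : b < y then S b else fun _ => 0) := by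
    intro y
    exact Ordinal.lt_wf.fix_eq _ y
  refine ⟨S, fun y hy => ⟨?_, ?_⟩⟩
  · intro e
    rw [hS y]
    exact (hT y _ hy).1 e
  · rintro ⟨Q, q, hQ, hq, hall⟩
    refine (hT y (fun b => if _h : b < y then S b else fun _ => 0) hy).2 Q q hQ hq ?_
    intro e
    obtain ⟨i, e', h1⟩ := hall e (mem_univ _)
    refine ⟨i, e', ?_⟩
    rw [← hS y, h1]
    simp only [hq i, dif_pos]

end Pool.Agent.Helper95.RV
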