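import Pool.Agent.Helper27.RV.St

set_option autoImplicit false

/-!
Module WF: no infinite descent.
-/

open Cardinal Ordinal Set

universe u

namespace Pool.Agent.Helper95.RV

open Pool.Agent.Helper27.RV

theorem pWF : StWF.{u} := by
  intro L J c p hJ hfib hpre hun
  by_contra hcon
  push Not at hcon
  let R : (Σ n, L n) → (Σ n, L n) → Prop :=
    fun z x => ∃ n, ∃ y : L (n + 1), z = ⟨n + 1, y⟩ ∧ x = ⟨n, p n y⟩
  have hwf : WellFounded R := by
    refine Subrelation.wf (r := InvImage (· < ·) (fun x : (Σ n, L n) => c x.1 x.2)) ?_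
      (InvImage.wf _ Ordinal.lt_wf)
    rintro z x ⟨n, y, rfl, rfl⟩
    exact hcon n y
  have : IsWellFounded (Σ n, L n) R := ⟨hwf⟩
  -- the ranks are below `ω₁`
  have h1 : ∀ x : (Σ n, L n), IsWellFounded.rank R x < ω_ 1 := by
    intro x
    induction x using hwf.induction with
    | _ x ih =>
    have hc : #{b // R b x} < (ω_ 1 : Ordinal.{u}).cof := by
      have h2 : #{b // R b x} ≤ ℵ₀ := by
        rw [Cardinal.mk_le_aleph0_iff]
        obtain ⟨n, l⟩ := x
        have h3 : ∀ b : {b // R b ⟨n, l⟩}, ∃ y : p n ⁻¹' {l}, b.1 = ⟨n + 1, y.1⟩ := by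
          rintro ⟨b, m, y, rfl, hb⟩
          obtain ⟨rfl, h4⟩ := Sigma.mk.inj_iff.1 hb
          have h5 := eq_of_heq h4
          exact ⟨⟨y, by rw [mem_preimage, mem_singleton_iff]; exact h5.symm⟩, rfl⟩
        choose f hf using h3
        have hinj : Function.Injective f := by
          intro a b hab
          apply Subtype.ext
          rw [hf a, hf b, hab]
        have : Countable (p n ⁻¹' {l}) := (hfib n l).to_subtype
        exact hinj.countable
      refine h2.trans_lt ?_
      have h6 : (ω_ 1 : Ordinal.{u}).cof = ℵ_ 1 := by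
        rw [← ord_aleph]
        exact isRegular_aleph_one.cof_ord
      rw [h6]
      exact aleph0_lt_aleph_one
    obtain ⟨s, hs, h7⟩ := exists_bd hc (fun b => IsWellFounded.rank R b.1) (fun b => ih b.1 b.2)
    rw [IsWellFounded.rank_eq]
    refine lt_of_le_of_lt ?_ hs
    exact ciSup_le' fun b => Order.succ_le_of_lt (h7 b)
  -- the sets of small rank are in the ideals
  have h2 : ∀ a : Ordinal.{u}, a ≤ ω_ 1 → ∀ n, {y : L n | IsWellFounded.rank R ⟨n, y⟩ ≤ a} ∈ J n := by
    intro a
    induction a using WellFoundedLT.induction with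
    | _ a ih =>
      intro ha n
      apply hpre
      have h3 : (⋃ b : a.ToType, {z : L (n + 1) | IsWellFounded.rank R ⟨n + 1, z⟩ ≤
          (b.toOrd : Ordinal.{u})}) ∈ J (n + 1) := by
        refine (hJ (n + 1)).un a.ToType _ ?_ ?_
        · rw [mk_toType]
          have := Ordinal.card_le_card ha
          rwa [← ord_aleph, card_ord] at this
        · intro b
          exact ih b.toOrd b.toOrd.2 (b.toOrd.2.le.trans ha) (n + 1)
      refine (hJ (n + 1)).sub _ _ ?_ h3
      intro z hz
      have h4 : IsWellFounded.rank R ⟨n + 1, z⟩ < a :=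
        lt_of_lt_of_le (IsWellFounded.rank_lt_of_rel ⟨n, z, rfl, rfl⟩) hz
      rw [mem_iUnion]
      refine ⟨ToType.mk ⟨_, h4⟩, ?_⟩
      simp [ToType.toOrd]
  apply hun
  refine (hJ 0).sub _ _ ?_ (h2 (ω_ 1) le_rfl 0)
  intro y _
  exact (h1 ⟨0, y⟩).le

end Pool.Agent.Helper95.RV
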